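import Pool.Agent.L0h77.MO.Stm

/-!
# Board MO, module FIC

A subgroup of finite index in a group with finitely many conjugacy classes has finitely many
conjugacy classes.
-/

set_option autoImplicit false

namespace Pool.Agent.L0h89.MO

open Subgroup Pool.Agent.L0h77.MO

theorem t_FIC : S_FIC := by
  intro G _ hG H hH
  classical
  have hfin : Finite (G ⧸ H) := Subgroup.finite_quotient_of_finiteIndex
  choose r hr using (fun c : ConjClasses G => ConjClasses.exists_rep c)
  choose s hs using (fun c : ConjClasses H => ConjClasses.exists_rep c)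
  have hc : ∀ c : ConjClasses H, ∃ g : G,
      g * r (ConjClasses.mk (s c : G)) * g⁻¹ = (s c : G) := by
    intro c
    have h : IsConj (r (ConjClasses.mk (s c : G))) (s c : G) :=
      ConjClasses.mk_eq_mk_iff_isConj.1 (hr _)
    exact isConj_iff.1 h
  choose g hg using hc
  have hf : Function.Injective (fun c : ConjClasses H =>
      ((ConjClasses.mk (s c : G), QuotientGroup.mk (g c)⁻¹) : ConjClasses G × (G ⧸ H))) := by
    intro c c' h
    have h1 : ConjClasses.mk (s c : G) = ConjClasses.mk (s c' : G) := (Prod.ext_iff.1 h).1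
    have h2 : (QuotientGroup.mk (g c)⁻¹ : G ⧸ H) = QuotientGroup.mk (g c')⁻¹ :=
      (Prod.ext_iff.1 h).2
    have h3 : g c * (g c')⁻¹ ∈ H := by
      have := QuotientGroup.eq.1 h2
      rwa [inv_inv] at this
    have h3' : g c' * (g c)⁻¹ ∈ H := by
      have := H.inv_mem h3
      rwa [mul_inv_rev, inv_inv] at this
    rw [← hs c, ← hs c', ConjClasses.mk_eq_mk_iff_isConj, isConj_iff]
    refine ⟨⟨g c' * (g c)⁻¹, h3'⟩, ?_⟩
    apply Subtype.ext
    show g c' * (g c)⁻¹ * (s c : G) * (g c' * (g c)⁻¹)⁻¹ = (s c' : G)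
    have e1 := hg c
    have e2 := hg c'
    rw [h1] at e1
    rw [← e1]
    refine Eq.trans ?_ e2
    group
  exact Finite.of_injective _ hf

end Pool.Agent.L0h89.MO
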